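import Pool.Agent.helper83.FI4B.Spec

/-! # FI4+, row BBD: the bound `l(B) ≤ p - 2` -/

set_option autoImplicit false

namespace Pool.Agent.FI4B

open Pool.Agent.helper58.DC Pool.Agent.DI Pool.Agent.GR Pool.Agent.OB Pool.Agent.DR Pool.Agent.FI Pool.Agent.FI3 Pool.Agent.FI4

/-- the pure part: `BON` for every character, then `BCN` -/
theorem BBD_core (hBON : BON_stmt) (hBCN : BCN_stmt) (p : ℕ) (hp : p.Prime) (D : Type) [CommGroup D] [Finite D]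
    (hD : IsPGroup p D) (R : Set D) (S : Finset (Subgroup D)) (hS : ∀ H ∈ S, H.index = p)
    (hc : ∀ u, u ∉ R → ∃ H ∈ S, u ∈ H) (n : ℕ) (hn : n + S.card + 1 < p) (X : Type) [Fintype X] (F : X → D → ℤ)
    (c : X → ℤ) (b : X → Subgroup D → ℤ) (hpc : ∀ x, ¬ (p : ℤ) ∣ c x)
    (hF : ∀ x, ∀ u ∈ R, (p : ℤ) ^ 2 ∣ F x u - (c x + p * ∑ᶠ V ∈ {V : Subgroup D | V.index = p ∧ u ∈ V}, b x V))
    (hB : ∀ a : X → ℤ, ∑ᶠ u ∈ R, (∑ x, a x * F x u) ^ 2 ≤ (n : ℤ) * Nat.card D * ∑ x, a x ^ 2) :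
    Fintype.card X + 1 < p := by
  classical
  have h1 : ∀ x, ∃ κ : ℤ, κ ≠ 0 ∧ 2 * |κ| < p ∧ ∀ u, (∀ H ∈ S, u ∉ H) → (p : ℤ) ^ 2 ∣ F x u - κ := by
    intro x
    refine hBON p hp D hD R S hS hc n hn (F x) (c x) (b x) (hpc x) (hF x) ?_
    have h2 := hB (fun y => if y = x then 1 else 0)
    have h3 : ∀ u, ∑ y, (if y = x then (1 : ℤ) else 0) * F y u = F x u := by
      intro u
      simp
    have h4 : ∑ y, (if y = x then (1 : ℤ) else 0) ^ 2 = 1 := by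
      simp
    rw [h4, mul_one] at h2
    simp only [h3] at h2
    exact h2
  choose κ hκ using h1
  have h2 := hBCN p hp D hD R S hS hc n hn X Finset.univ F κ (fun x _ => hκ x) hB
  rwa [Finset.card_univ] at h2

/-- fewer than `p` subgroups of index `p` do not cover `D` -/
theorem BBD_ne (p : ℕ) (D : Type) [Group D] [Finite D] (R : Set D) (S : Finset (Subgroup D)) (hS : ∀ H ∈ S, H.index = p)
    (hc : ∀ u, u ∉ R → ∃ H ∈ S, u ∈ H) (hn : S.card < p) : R.Nonempty := by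
  classical
  by_contra hne
  rw [Set.not_nonempty_iff_eq_empty] at hne
  have := Fintype.ofFinite D
  have h1 : (Finset.univ : Finset D) ⊆ S.biUnion fun H => (Set.toFinite (H : Set D)).toFinset := by
    intro u _
    obtain ⟨H, hH, hu⟩ := hc u (by rw [hne]; exact Set.notMem_empty u)
    rw [Finset.mem_biUnion]
    exact ⟨H, hH, (Set.Finite.mem_toFinset _).2 hu⟩
  have h2 := (Finset.card_le_card h1).trans Finset.card_biUnion_le
  have h3 : ∀ H ∈ S, p * (Set.toFinite (H : Set D)).toFinset.card = Nat.card D := by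
    intro H hH
    rw [← Set.ncard_eq_toFinset_card, ← hS H hH, mul_comm]
    exact H.card_mul_index
  have h4 : p * ∑ H ∈ S, (Set.toFinite (H : Set D)).toFinset.card = S.card * Nat.card D := by
    rw [Finset.mul_sum, Finset.sum_congr rfl h3, Finset.sum_const, smul_eq_mul]
  rw [Finset.card_univ, ← Nat.card_eq_fintype_card] at h2
  have h5 : 0 < Nat.card D := Nat.card_pos
  have h6 : p * Nat.card D ≤ S.card * Nat.card D := by
    rw [← h4]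
    exact Nat.mul_le_mul_left p h2
  have h7 := le_of_mul_le_mul_right h6 h5
  omega

/-- transport of Bessel's inequality to integer combinations of the characters in a subset `S` (as `BD4_bes`) -/
theorem BBD_bes {G : Type} [Group G] [Finite G] (B S : Set (G → ℂ)) (hSB : S ⊆ B) [Fintype S] (R : Set G) (U : Finset G)
    (hU : ∀ u, u ∈ U ↔ u ∈ R) (d : (G → ℂ) → G → ℂ) (f : S → G → ℤ) (hf : ∀ ψ : S, ∀ u ∈ R, d ψ u = f ψ u) (N : ℕ)
    (h : ∀ a : (G → ℂ) → ℂ, ∑ᶠ u ∈ R, ‖∑ᶠ ψ ∈ B, a ψ * d ψ u‖ ^ 2 ≤ (N : ℝ) * ∑ᶠ ψ ∈ B, ‖a ψ‖ ^ 2) (a : S → ℤ) :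
    ∑ u ∈ U, (∑ i, a i * f i u) ^ 2 ≤ N * ∑ i, a i ^ 2 := by
  classical
  have h1 := h (fun ψ => if hψ : ψ ∈ S then (a ⟨ψ, hψ⟩ : ℂ) else 0)
  have key : ∀ {E : Type} [AddCommMonoid E] (g : (G → ℂ) → E) (g' : S → E), (∀ ψ, ψ ∉ S → g ψ = 0) →
      (∀ i : S, g i = g' i) → ∑ᶠ ψ ∈ B, g ψ = ∑ i, g' i := by
    intro E _ g g' h0 h2
    have h3 : ∑ᶠ ψ ∈ B, g ψ = ∑ᶠ ψ ∈ S, g ψ := by
      refine finsum_mem_inter_support_eq g B S ?_
      ext ψ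
      constructor
      · rintro ⟨-, h5⟩
        refine ⟨?_, h5⟩
        by_contra h6
        exact h5 (h0 ψ h6)
      · rintro ⟨h4, h5⟩
        exact ⟨hSB h4, h5⟩
    rw [h3, ← finsum_subtype_eq_finsum_cond, finsum_eq_sum_of_fintype]
    exact Finset.sum_congr rfl fun i _ => h2 i
  have e1 : ∑ᶠ ψ ∈ B, ‖(if hψ : ψ ∈ S then (a ⟨ψ, hψ⟩ : ℂ) else 0)‖ ^ 2 = ((∑ i, a i ^ 2 : ℤ) : ℝ) := by
    rw [key (fun ψ => ‖(if hψ : ψ ∈ S then (a ⟨ψ, hψ⟩ : ℂ) else 0)‖ ^ 2) (fun i => ((a i : ℤ) : ℝ) ^ 2)]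
    · push_cast
      rfl
    · intro ψ hψ
      simp only [dif_neg hψ]
      simp
    · intro i
      simp only [dif_pos i.2]
      rw [Complex.norm_intCast, sq_abs]
  have e2 : ∑ᶠ u ∈ R, ‖∑ᶠ ψ ∈ B, (if hψ : ψ ∈ S then (a ⟨ψ, hψ⟩ : ℂ) else 0) * d ψ u‖ ^ 2 =
      ((∑ u ∈ U, (∑ i, a i * f i u) ^ 2 : ℤ) : ℝ) := by
    have h3 : R = (U : Set G) := by
      ext u
      rw [Finset.mem_coe, hU]
    rw [h3, finsum_mem_coe_finset]
    push_cast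
    refine Finset.sum_congr rfl fun u hu => ?_
    have h4 : ∑ᶠ ψ ∈ B, (if hψ : ψ ∈ S then (a ⟨ψ, hψ⟩ : ℂ) else 0) * d ψ u = ((∑ i, a i * f i u : ℤ) : ℂ) := by
      rw [key (fun ψ => (if hψ : ψ ∈ S then (a ⟨ψ, hψ⟩ : ℂ) else 0) * d ψ u)
        (fun i => ((a i : ℤ) : ℂ) * ((f i u : ℤ) : ℂ))]
      · push_cast
        rfl
      · intro ψ hψ
        simp only [dif_neg hψ, zero_mul]
      · intro i
        simp only [dif_pos i.2]
        rw [hf i u ((hU u).1 hu)]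
    rw [h4, Complex.norm_intCast, sq_abs]
    push_cast
    rfl
  rw [e1, e2] at h1
  exact_mod_cast h1

theorem BBD (hBST : BST_stmt) (hBON : BON_stmt) (hBCN : BCN_stmt) (hLOA : LOA_stmt) (hGRG : GRG_stmt)
    (hKZ4 : KZ4_stmt) (hIR4 : IR4_stmt) (hBES : BES4_stmt) (hBHT : BHT_stmt) (hCN4 : CN4_stmt)
    (hGMX : GMX_stmt) (hLLN : LLN_stmt) (hTPR : FI.TPR_stmt) : BBD_stmt := by
  classical
  intro p M hS G _ _ D x θ χ hR hHy
  have hp := hS.pr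
  have : Fact p.Prime := ⟨hp⟩
  obtain ⟨S₀, hS1, hS2, hS3⟩ := id hHy
  have hi1 : 1 ≤ iI M D θ := by
    unfold iI Subgroup.relIndex
    exact Nat.one_le_iff_ne_zero.2 Subgroup.index_ne_zero_of_finite
  have hp2 : p ≠ 2 := by
    rintro rfl
    omega
  have hlt : iI M D θ < p - 1 := by omega
  have lo := hLOA p M hS G D x θ χ hR
  obtain ⟨hT1, hT2, -⟩ := hTPR p M hS G
  have hθ : SB M ⊤ θ χ := (hT2 θ χ).1 hR.ind
  have hB : ∀ ψ ∈ Blk M χ (⊤ : Subgroup G), ψ ∈ Bl M (⊤ : Subgroup G) θ := fun ψ hψ =>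
    ⟨hψ.1, ((hT2 ψ χ).1 hψ.2).trans hθ.symm⟩
  obtain ⟨m, hm⟩ := hGMX p (Nat.card G) hp hp2 Nat.card_pos
  have hcn := hCN4 p M hS G D x θ χ hR hlt m hm
  obtain ⟨l, hl, hl1⟩ := hLLN p M hS G χ ⊤
  have hχ : χ ∈ Blk M χ (⊤ : Subgroup G) := by
    refine ⟨?_, fun g => ⟨0, M.zero_mem, by simp⟩⟩
    rw [hT1]
    exact hR.chi
  refine ⟨l, hl, hl1 ⟨χ, hχ⟩, ?_⟩
  obtain ⟨S, hSdef⟩ : ∃ S : Set (G → ℂ), S = {ψ : G → ℂ | ψ ∈ Blk M χ (⊤ : Subgroup G) ∧ PR m ψ} := ⟨_, rfl⟩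
  rw [← hSdef] at hcn
  have hSB : S ⊆ Blk M χ (⊤ : Subgroup G) := by
    rw [hSdef]
    exact fun ψ hψ => hψ.1
  have hSP : ∀ ψ ∈ S, PR m ψ := by
    rw [hSdef]
    exact fun ψ hψ => hψ.2
  have hSf : S.Finite := (IrrOn_fin (⊤ : Subgroup G)).subset fun ψ hψ => (hSB hψ).1
  have hlS : l = S.ncard := by
    have h1 : (l : ℂ) = (S.ncard : ℂ) := by rw [← hl, hcn]
    exact_mod_cast h1
  have := hSf.fintype
  obtain ⟨a, ha⟩ : ∃ a : ℕ, Nat.card D = p ^ a := (IsPGroup.iff_card.1 hR.dfa.pgrp)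
  have hpel : ∀ u ∈ D, PEl p u := by
    intro u hu
    obtain ⟨k, hk⟩ := hR.dfa.pgrp ⟨u, hu⟩
    refine ⟨k, ?_⟩
    have h1 := congrArg (fun z : D => (z : G)) hk
    simpa using h1
  obtain ⟨ε, hε, hεc⟩ := hBST p M hS hp2 G D x θ χ lo
  have hint : ∀ (ψ : S) (u : G), u ∈ RG M D θ → ∃ f : ℤ, dd M (Cz (⊤ : Subgroup G) u) θ ψ u = f := by
    intro ψ u hu
    exact hIR4 p M hS G D θ m hm u (hpel u hu.1) (hGRG p M hS hp2 G D x θ χ lo u hu).1 ψ (hSB ψ.2).1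
      (hSP ψ ψ.2)
  choose! f hf using hint
  obtain ⟨U, hUdef⟩ : ∃ U : Finset G, U = (Set.toFinite (RG M D θ)).toFinset := ⟨_, rfl⟩
  have hU : ∀ u, u ∈ U ↔ u ∈ RG M D θ := fun u => by rw [hUdef, Set.Finite.mem_toFinset]
  -- the data on the type `D`
  obtain ⟨R, hRdef⟩ : ∃ R : Set D, R = {u : D | (u : G) ∈ RG M D θ} := ⟨_, rfl⟩
  have hRm : ∀ u : D, u ∈ R ↔ (u : G) ∈ RG M D θ := fun u => by rw [hRdef]; rfl
  obtain ⟨S', hS'def⟩ : ∃ S' : Finset (Subgroup D), S' = S₀.image fun H => H.subgroupOf D := ⟨_, rfl⟩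
  have hS'1 : ∀ H ∈ S', H.index = p := by
    intro H hH
    rw [hS'def, Finset.mem_image] at hH
    obtain ⟨H₀, h1, rfl⟩ := hH
    exact (hS1 H₀ h1).2
  have hS'2 : ∀ u : D, u ∉ R → ∃ H ∈ S', u ∈ H := by
    intro u hu
    obtain ⟨H₀, h1, h2⟩ := hS2 u u.2 (fun h => hu ((hRm u).2 h))
    refine ⟨H₀.subgroupOf D, ?_, Subgroup.mem_subgroupOf.2 h2⟩
    rw [hS'def]
    exact Finset.mem_image_of_mem _ h1
  have hS'3 : S'.card ≤ S₀.card := by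
    rw [hS'def]
    exact Finset.card_image_le
  have hbst := fun ψ : S => hεc m hm ψ (hSB ψ.2).1 (hSP ψ ψ.2)
  choose c b hcb using hbst
  have hne : R.Nonempty := BBD_ne p D R S' hS'1 hS'2 (by omega)
  have hpc : ∀ ψ : S, ¬ (p : ℤ) ∣ c ψ := by
    intro ψ hd
    obtain ⟨u₀, hu₀⟩ := hne
    have hu₁ := (hRm u₀).1 hu₀
    have h1 := hcb ψ u₀ hu₁ (f ψ u₀) (hf ψ u₀ hu₁)
    have h2 : (p : ℤ) ∣ ε u₀ * f ψ u₀ := by
      have h3 : (p : ℤ) ∣ ε u₀ * f ψ u₀ -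
          (c ψ + p * ∑ᶠ V ∈ {V : Subgroup D | V.index = p ∧ u₀ ∈ V}, b ψ V) :=
        (dvd_pow_self (p : ℤ) two_ne_zero).trans h1
      have h4 : (p : ℤ) ∣ c ψ + p * ∑ᶠ V ∈ {V : Subgroup D | V.index = p ∧ u₀ ∈ V}, b ψ V :=
        dvd_add hd (dvd_mul_right _ _)
      have h5 := dvd_add h3 h4
      rwa [sub_add_cancel] at h5
    have h6 : (p : ℤ) ∣ f ψ u₀ := by
      rcases hε u₀ with h7 | h7
      · rwa [h7, one_mul] at h2
      · rw [h7, neg_one_mul] at h2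
        exact (dvd_neg.1 h2)
    obtain ⟨k, hk⟩ := h6
    refine hKZ4 p M hS hp2 G D x θ χ lo u₀ hu₁ ψ (hB ψ (hSB ψ.2)) a ha
      (hBHT p M hS G D x θ χ hR hHy ψ (hSB ψ.2) a ha) ?_
    rw [hf ψ u₀ hu₁, hk]
    push_cast
    exact InM.mul_right hS (InM.prime_mem hS) (IntAt.intCast hS k)
  have hbes : ∀ e : S → ℤ, ∑ᶠ u ∈ R, (∑ ψ, e ψ * (ε u * f ψ u)) ^ 2 ≤
      (iI M D θ : ℤ) * Nat.card D * ∑ ψ, e ψ ^ 2 := by
    intro e
    have h1 := BBD_bes (Blk M χ (⊤ : Subgroup G)) S hSB (RG M D θ) U hU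
      (fun ψ u => dd M (Cz (⊤ : Subgroup G) u) θ ψ u) f (fun ψ u hu => hf ψ u hu) (iI M D θ * Nat.card D) (by
        intro c
        refine (hBES p M hS hp2 G D x θ χ lo c).trans (le_of_eq ?_)
        push_cast
        ring) e
    have h2 : ∑ᶠ u ∈ R, (∑ ψ, e ψ * (ε u * f ψ u)) ^ 2 = ∑ u ∈ U, (∑ ψ, e ψ * f ψ u) ^ 2 := by
      have h3 : (U : Set G) = Subtype.val '' R := by
        ext u
        rw [Finset.mem_coe, hU, Set.mem_image]
        constructor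
        · intro hu
          exact ⟨⟨u, hu.1⟩, (hRm _).2 hu, rfl⟩
        · rintro ⟨v, hv, rfl⟩
          exact (hRm v).1 hv
      rw [← finsum_mem_coe_finset, h3, finsum_mem_image Subtype.val_injective.injOn]
      refine finsum_mem_congr rfl fun u _ => ?_
      have h4 : ∑ ψ, e ψ * (ε u * f ψ u) = ε u * ∑ ψ, e ψ * f ψ u := by
        rw [Finset.mul_sum]
        exact Finset.sum_congr rfl fun ψ _ => by ring
      have h5 : ε u ^ 2 = 1 := by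
        rcases hε u with h6 | h6 <;> rw [h6] <;> norm_num
      rw [h4, mul_pow, h5, one_mul]
    rw [h2]
    refine h1.trans (le_of_eq ?_)
    push_cast
    ring
  let cg : CommGroup D :=
    { (inferInstance : Group D) with mul_comm := fun u v => Subtype.ext (hR.com u u.2 v v.2) }
  have hfin := @BBD_core hBON hBCN p hp D cg inferInstance hR.dfa.pgrp R S' hS'1 hS'2 (iI M D θ) (by omega) S _
    (fun ψ u => ε u * f ψ u) c b hpc (fun ψ u hu => hcb ψ u ((hRm u).1 hu) (f ψ u) (hf ψ u ((hRm u).1 hu))) hbes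
  have h1 : Fintype.card S = S.ncard := by
    rw [← Nat.card_eq_fintype_card, Nat.card_coe_set_eq]
  rw [h1, ← hlS] at hfin
  exact hfin

end Pool.Agent.FI4B
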